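import Pool.Agent.helper92.VC.Spec

/-! Row `vc:VNV`: `VP ⊆ VNP`. -/

set_option autoImplicit false

universe u

namespace Pool.Agent.helper92.VC

open MvPolynomial

private theorem VNV_append {k : Type u} [Field k] (v : ℕ)
    (b : Fin 0 → MvPolynomial (Fin v) k) :
    (Fin.append (fun i : Fin v => (X i : MvPolynomial (Fin v) k)) b :
      Fin (v + 0) → MvPolynomial (Fin v) k) = X := by
  funext i
  exact Fin.append_left (fun i : Fin v => (X i : MvPolynomial (Fin v) k)) b i

theorem VNV : VNV_stmt.{u} := by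
  intro k _ F hF
  refine ⟨hF.1, fun _ => 0, ⟨0, fun n => Nat.zero_le _⟩, F.f, hF, fun n => ?_⟩
  rw [Fintype.sum_unique, VNV_append]
  exact (aeval_X_left_apply (F.f n)).symm

end Pool.Agent.helper92.VC
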